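import Pool.Agent.H87.EBK.Stmts2

/-!
Row DWN of the board ebs (MP_93721d_nt), helper85: descent.
-/

set_option autoImplicit false

namespace Pool.EBK

theorem dwn : DWN := by
  intro P c0 y1 y2 δ hP h12 h20 hδ hstep
  have key : ∀ (n : ℕ) (c : ℚ), P c → y2 ≤ c → c ≤ c0 → c < y2 + n * δ →
      ∃ c', P c' ∧ y1 < c' ∧ c' < y2 := by
    intro n
    induction n with
    | zero =>
      intro c _ h1 _ h3
      rw [Nat.cast_zero, zero_mul, add_zero] at h3
      exact absurd h3 (not_lt.2 h1)
    | succ n ih =>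
      intro c hc h1 h2 h3
      obtain ⟨c', hc', h4, h5⟩ := hstep c hc h1 h2
      rcases lt_or_ge c' y2 with h6 | h6
      · exact ⟨c', hc', h4, h6⟩
      · refine ih c' hc' h6 (by linarith) ?_
        push_cast at h3
        linarith
  obtain ⟨n, hn⟩ := exists_nat_gt ((c0 - y2) / δ)
  refine key n c0 hP h20 le_rfl ?_
  rw [div_lt_iff₀ hδ] at hn
  linarith

end Pool.EBK
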